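import Pool.Agent.W593.IR.Stm3

set_option autoImplicit false

/-! Part IR3-IBE of project IR (helper593): blow-up. -/

namespace Pool.Agent.W854.IR

open Finset Pool.Agent.W890.SF Pool.Agent.W593.IR Filter Topology

/-- tuples in the blow-up -/
lemma ng_blow (V : Type) [Fintype V] (y : V → ℝ) (M k : ℕ) :
    NG (fun w : V × Fin M => y w.1) k = NG y k * M ^ k := by
  unfold NG
  have e : ({f : Fin k → V × Fin M | 1 ≤ ∑ i, y (f i).1} : Set _) ≃
      ({g : Fin k → V | 1 ≤ ∑ i, y (g i)} : Set _) × (Fin k → Fin M) :=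
    { toFun := fun f => (⟨fun i => (f.1 i).1, f.2⟩, fun i => (f.1 i).2)
      invFun := fun p => ⟨fun i => (p.1.1 i, p.2 i), p.1.2⟩
      left_inv := fun f => rfl
      right_inv := fun p => rfl }
  have h := Nat.card_congr e
  rw [Nat.card_prod] at h
  rw [← Nat.card_coe_set_eq, ← Nat.card_coe_set_eq, h]
  congr 1
  rw [Nat.card_eq_fintype_card, Fintype.card_fun, Fintype.card_fin, Fintype.card_fin]

lemma supp_blow (V : Type) [Fintype V] (y : V → ℝ) (M : ℕ) :
    (univ.filter (fun w : V × Fin M => y w.1 ≠ 0)).card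
      = (univ.filter (fun v : V => y v ≠ 0)).card * M := by
  have : (univ.filter (fun w : V × Fin M => y w.1 ≠ 0))
      = (univ.filter (fun v : V => y v ≠ 0)) ×ˢ (univ : Finset (Fin M)) := by
    ext w
    simp
  rw [this, Finset.card_product, Finset.card_univ, Fintype.card_fin]

lemma sum_blow (V : Type) [Fintype V] (y : V → ℝ) (M : ℕ) :
    ∑ w : V × Fin M, y w.1 = (M : ℝ) * ∑ v, y v := by
  rw [Fintype.sum_prod_type]
  simp only [Finset.sum_const, Finset.card_univ, Fintype.card_fin, nsmul_eq_mul]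
  rw [Finset.mul_sum]

theorem ibe : S_IBE := by
  intro k x ρ1 hk hx hkx hρ1 hE
  intro ε hε
  have hk0 : (0 : ℝ) < k := by exact_mod_cast (by omega : 0 < k)
  set g : ℝ → ℝ := fun η => max (((k : ℝ) * (x + 2 * η)) ^ k) (1 - (1 - (x + 2 * η)) ^ k) with hg
  have hgc : Continuous g := by
    rw [hg]; fun_prop
  have hg0 : g 0 = mv k x := by
    simp only [hg, mv, mul_zero, add_zero]
    rw [max_comm]
  have h1 : ∀ᶠ η in 𝓝 (0 : ℝ), g η < mv k x + ε := by
    refine hgc.continuousAt.eventually_lt continuousAt_const ?_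
    rw [hg0]; linarith
  have h2 : ∀ᶠ η in 𝓝 (0 : ℝ), (k : ℝ) * (x + 2 * η) < ρ1 := by
    have hc : Continuous (fun η : ℝ => (k : ℝ) * (x + 2 * η)) := by fun_prop
    refine hc.continuousAt.eventually_lt continuousAt_const ?_
    simpa using hkx
  have h3 : ∀ᶠ η in 𝓝[>] (0 : ℝ), g η < mv k x + ε ∧ (k : ℝ) * (x + 2 * η) < ρ1 ∧ 0 < η := by
    filter_upwards [h1.filter_mono nhdsWithin_le_nhds, h2.filter_mono nhdsWithin_le_nhds,
      self_mem_nhdsWithin] with η a b c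
    exact ⟨a, b, c⟩
  obtain ⟨η, hη1, hη2, hη0⟩ := h3.exists
  refine ⟨η, hη0, ?_⟩
  intro V _ _ y s hy hs hsV hsupp hsum hsη
  set n : ℕ := Fintype.card V with hn
  have hn0 : 0 < n := lt_of_lt_of_le hs hsV
  have hnR : (0 : ℝ) < n := by exact_mod_cast hn0
  -- choice of M
  obtain ⟨M0, hM0⟩ := exists_nat_ge (1 / ((k : ℝ) * η * n))
  set M : ℕ := M0 + 1 with hM
  have hMR : (0 : ℝ) < M := by rw [hM]; positivity
  have hden : 0 < (k : ℝ) * η * n := by positivity
  have hkey : 1 ≤ (k : ℝ) * η * n * M := by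
    have h5 : 1 / ((k : ℝ) * η * n) ≤ M := by
      rw [hM]; push_cast; linarith
    rw [div_le_iff₀ hden] at h5
    linarith [mul_comm ((k : ℝ) * η * n) (M : ℝ)]
  set t : ℝ := (k : ℝ) * (x + 2 * η) * n * M with ht
  have ht0 : 0 ≤ t := by rw [ht]; positivity
  set s2 : ℕ := ⌊t⌋₊ with hs2
  have hs2le : (s2 : ℝ) ≤ t := Nat.floor_le ht0
  have hs2gt : t < (s2 : ℝ) + 1 := Nat.lt_floor_add_one t
  have hlow : (k : ℝ) * (x + η) * n * M ≤ s2 := by
    have : t = (k : ℝ) * (x + η) * n * M + (k : ℝ) * η * n * M := by rw [ht]; ring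
    linarith
  have hsM : (s : ℝ) * M ≤ s2 := by
    have : (s : ℝ) * M ≤ (k : ℝ) * (x + η) * n * M := mul_le_mul_of_nonneg_right hsη hMR.le
    linarith
  have hsMN : s * M ≤ s2 := by exact_mod_cast hsM
  have hs2pos : 0 < s2 := lt_of_lt_of_le (Nat.mul_pos hs (by rw [hM]; omega)) hsMN
  have hcardW : Fintype.card (V × Fin M) = n * M := by
    rw [Fintype.card_prod, Fintype.card_fin]
  have hρlt1 : (k : ℝ) * (x + 2 * η) ≤ 1 := by linarith
  have hs2n : s2 ≤ Fintype.card (V × Fin M) := by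
    rw [hcardW]
    have h6 : (s2 : ℝ) ≤ ((n * M : ℕ) : ℝ) := by
      push_cast
      have h7 : t ≤ 1 * (n * M : ℝ) := by
        have : t = ((k : ℝ) * (x + 2 * η)) * (n * M) := by rw [ht]; ring
        rw [this]
        exact mul_le_mul_of_nonneg_right hρlt1 (by positivity)
      linarith
    exact_mod_cast h6
  have hNM : (0 : ℝ) < (n : ℝ) * M := by positivity
  set ρ : ℝ := (s2 : ℝ) / ((n : ℝ) * M) with hρ
  have hρu : ρ ≤ (k : ℝ) * (x + 2 * η) := by
    rw [hρ, div_le_iff₀ hNM]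
    calc (s2 : ℝ) ≤ t := hs2le
      _ = (k : ℝ) * (x + 2 * η) * ((n : ℝ) * M) := by rw [ht]; ring
  have hρl : (k : ℝ) * x ≤ ρ := by
    rw [hρ, le_div_iff₀ hNM]
    have h8 : (k : ℝ) * x * ((n : ℝ) * M) ≤ (k : ℝ) * (x + η) * n * M := by
      have : (k : ℝ) * (x + η) * n * M = (k : ℝ) * x * ((n : ℝ) * M) + (k : ℝ) * η * n * M := by
        ring
      linarith
    linarith
  have hρ0 : 0 ≤ ρ := by rw [hρ]; positivity
  have hex := hE ρ hρl (by linarith) (V × Fin M) (fun w => y w.1) s2 (fun w => hy w.1) hs2pos hs2n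
    (by
      rw [supp_blow]
      calc _ ≤ s * M := Nat.mul_le_mul_right _ hsupp
        _ ≤ s2 := hsMN)
    (by
      rw [sum_blow]
      calc (k : ℝ) * ((M : ℝ) * ∑ v, y v) = ((k : ℝ) * ∑ v, y v) * M := by ring
        _ ≤ (s : ℝ) * M := mul_le_mul_of_nonneg_right hsum hMR.le
        _ ≤ s2 := hsM)
    (by rw [hcardW, hρ]; push_cast; rfl)
  rw [ng_blow, hcardW] at hex
  push_cast at hex
  have hmax : max (ρ ^ k) (1 - (1 - ρ / k) ^ k) ≤ mv k x + ε := by
    refine le_trans ?_ hη1.le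
    simp only [hg]
    apply max_le_max
    · exact pow_le_pow_left₀ hρ0 hρu k
    · have h9 : ρ / k ≤ x + 2 * η := by
        rw [div_le_iff₀ hk0]
        linarith [mul_comm (k : ℝ) (x + 2 * η)]
      have h10 : x + 2 * η ≤ 1 := by
        have hk1 : (1 : ℝ) ≤ k := by exact_mod_cast (by omega : 1 ≤ k)
        nlinarith
      have h11 : (1 - (x + 2 * η)) ^ k ≤ (1 - ρ / k) ^ k :=
        pow_le_pow_left₀ (by linarith) (by linarith) k
      linarith
  have hMk : (0 : ℝ) < (M : ℝ) ^ k := by positivity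
  have hfin : (NG y k : ℝ) * (M : ℝ) ^ k ≤ ((n : ℝ) ^ k * (mv k x + ε)) * (M : ℝ) ^ k := by
    calc (NG y k : ℝ) * (M : ℝ) ^ k
        ≤ ((n : ℝ) * M) ^ k * max (ρ ^ k) (1 - (1 - ρ / k) ^ k) := hex
      _ ≤ ((n : ℝ) * M) ^ k * (mv k x + ε) :=
          mul_le_mul_of_nonneg_left hmax (by positivity)
      _ = ((n : ℝ) ^ k * (mv k x + ε)) * (M : ℝ) ^ k := by rw [mul_pow]; ring
  exact le_of_mul_le_mul_right hfin hMk

end Pool.Agent.W854.IR
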